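import Pool.Agent.H66.AV.TF

/-!
# Protocols which are not better than guessing: row HY4 (the hybrid argument)
-/

set_option autoImplicit false

namespace Pool.Agent.H23.AV

open Finset Pool.Agent.H6.NB Pool.Agent.H70.OQ Pool.Agent.H70.EH Pool.Agent.H70.EI Pool.Agent.H78.XQ
open Pool.Agent.H66.AV

section hy

variable {I : Type} [Fintype I] [DecidableEq I] {T : I → Type} [∀ j, Fintype (T j)]

open Classical in
/-- the points which agree with `Q` outside `R` -/
private noncomputable def hyX (Q : ∀ j, T j) (R : Finset I) : Finset (∀ j, T j) :=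
  Finset.univ.filter fun P => ∀ j, j ∉ R → P j = Q j

private theorem hyX_mem {Q : ∀ j, T j} {R : Finset I} {P : ∀ j, T j} :
    P ∈ hyX Q R ↔ ∀ j, j ∉ R → P j = Q j := by
  simp [hyX]

private theorem hy_re (Q : ∀ j, T j) (R : Finset I) (a : I) (ha : a ∉ R)
    (G : (∀ j, T j) → ℝ) :
    ∑ P ∈ hyX Q (insert a R), G P = ∑ P ∈ hyX Q R, ∑ p : T a, G (Function.update P a p) := by
  rw [← Finset.sum_product' (hyX Q R) Finset.univ (fun P p => G (Function.update P a p))]
  refine Finset.sum_nbij' (fun P => (Function.update P a (Q a), P a))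
    (fun x => Function.update x.1 a x.2) ?_ ?_ ?_ ?_ ?_
  · intro P hP
    rw [hyX_mem] at hP
    refine Finset.mem_product.2 ⟨hyX_mem.2 fun j hj => ?_, Finset.mem_univ _⟩
    by_cases hja : j = a
    · subst hja
      show Function.update P j (Q j) j = Q j
      rw [Function.update_self]
    · show Function.update P a (Q a) j = Q j
      rw [Function.update_of_ne hja]
      exact hP j fun h => (Finset.mem_insert.1 h).elim hja hj
  · rintro ⟨P, p⟩ hP
    have h1 := hyX_mem.1 (Finset.mem_product.1 hP).1
    refine hyX_mem.2 fun j hj => ?_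
    have hja : j ≠ a := fun h => hj (h ▸ Finset.mem_insert_self a R)
    show Function.update P a p j = Q j
    rw [Function.update_of_ne hja]
    exact h1 j fun h => hj (Finset.mem_insert_of_mem h)
  · intro P _
    show Function.update (Function.update P a (Q a)) a (P a) = P
    rw [Function.update_idem, Function.update_eq_self]
  · rintro ⟨P, p⟩ hP
    have h1 := hyX_mem.1 (Finset.mem_product.1 hP).1
    show (Function.update (Function.update P a p) a (Q a), Function.update P a p a) = (P, p)
    rw [Function.update_idem, Function.update_self]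
    refine Prod.ext ?_ rfl
    show Function.update P a (Q a) = P
    rw [← h1 a ha, Function.update_eq_self]
  · intro P _
    show G P = G (Function.update (Function.update P a (Q a)) a (P a))
    rw [Function.update_idem, Function.update_eq_self]

/-- the partial sum -/
private noncomputable def hyS (Q : ∀ j, T j) (f : (∀ j, T j) → I → Bool)
    (m : Bool → ∀ j, T j → ℝ) (R : Finset I) (G : (∀ j, T j) → ℝ) : ℝ :=
  ∑ P ∈ hyX Q R, (∏ j ∈ R, m (f P j) j (P j)) * G P

private theorem hy_step (Q : ∀ j, T j) (f : (∀ j, T j) → I → Bool)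
    (m : Bool → ∀ j, T j → ℝ) (R : Finset I) (a : I) (ha : a ∉ R)
    (hf : ∀ j ∈ insert a R, ∀ (P : ∀ j, T j) (p : T a), f (Function.update P a p) j = f P j)
    (G : (∀ j, T j) → ℝ) :
    hyS Q f m (insert a R) G =
      hyS Q f m R fun P => ∑ p, m (f P a) a p * G (Function.update P a p) := by
  unfold hyS
  rw [hy_re Q R a ha]
  refine Finset.sum_congr rfl fun P _ => ?_
  rw [Finset.mul_sum]
  refine Finset.sum_congr rfl fun p _ => ?_
  have h1 : ∏ j ∈ R, m (f (Function.update P a p) j) j (Function.update P a p j) =
      ∏ j ∈ R, m (f P j) j (P j) :=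
    Finset.prod_congr rfl fun j hj => by
      have hne : j ≠ a := fun h => ha (h ▸ hj)
      rw [hf j (Finset.mem_insert_of_mem hj), Function.update_of_ne hne]
  rw [Finset.prod_insert ha, hf a (Finset.mem_insert_self a R), Function.update_self, h1]
  ring

private theorem hy_mono (Q : ∀ j, T j) (f : (∀ j, T j) → I → Bool)
    (m : Bool → ∀ j, T j → ℝ) (hm0 : ∀ b j p, 0 ≤ m b j p) (R : Finset I)
    (G G' : (∀ j, T j) → ℝ) (h : ∀ P, G P ≤ G' P) : hyS Q f m R G ≤ hyS Q f m R G' :=
  Finset.sum_le_sum fun P _ => mul_le_mul_of_nonneg_left (h P)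
    (Finset.prod_nonneg fun _ _ => hm0 _ _ _)

private theorem hy_mass (Q : ∀ j, T j) (f : (∀ j, T j) → I → Bool)
    (m : Bool → ∀ j, T j → ℝ) (ord : I → ℕ) (hm0 : ∀ b j p, 0 ≤ m b j p)
    (hm1 : ∀ b j, ∑ p, m b j p ≤ 1)
    (hf : ∀ i j (P : ∀ j, T j) (p : T j), ord i ≤ ord j → f (Function.update P j p) i = f P i)
    (R : Finset I) : hyS Q f m R (fun _ => 1) ≤ 1 := by
  induction R using Finset.induction_on_max_value ord with
  | empty =>
    have h1 : hyX Q (∅ : Finset I) = {Q} := by
      ext P
      rw [hyX_mem, Finset.mem_singleton]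
      exact ⟨fun h => funext fun j => h j (Finset.notMem_empty j), fun h j _ => h ▸ rfl⟩
    unfold hyS
    rw [h1, Finset.sum_singleton, Finset.prod_empty, mul_one]
  | insert a s ha hmax ih =>
    rw [hy_step Q f m s a ha fun j hj P p => hf j a P p (by
      rcases Finset.mem_insert.1 hj with rfl | hj
      · exact le_rfl
      · exact hmax j hj)]
    refine (hy_mono Q f m hm0 s _ (fun _ => 1) fun P => ?_).trans ih
    simp only [mul_one]
    exact hm1 _ _

private theorem hy_main (Q : ∀ j, T j) (ord : I → ℕ) (n : ℕ) (m₀ : ∀ j, T j → ℝ)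
    (m : Bool → ∀ j, T j → ℝ) (f : (∀ j, T j) → I → Bool) (η : I → ℝ)
    (h0 : ∀ j p, 0 ≤ m₀ j p) (h1 : ∀ j, ∑ p, m₀ j p ≤ 1) (hm0 : ∀ b j p, 0 ≤ m b j p)
    (hm1 : ∀ b j, ∑ p, m b j p ≤ 1) (hη : ∀ j, 0 ≤ η j)
    (hf : ∀ i j (P : ∀ j, T j) (p : T j), ord i ≤ ord j → f (Function.update P j p) i = f P i)
    (R : Finset I) : ∀ G : (∀ j, T j) → ℝ,
    (∀ b, ∀ j ∈ R, n < ord j → ∀ P, |∑ p, m b j p * G (Function.update P j p) -
      ∑ p, m₀ j p * G (Function.update P j p)| ≤ η j) →
    |hyS Q f m R G - hyS Q f (fun b j p => if ord j ≤ n then m b j p else m₀ j p) R G| ≤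
      ∑ j ∈ R.filter (fun j => n < ord j), η j := by
  induction R using Finset.induction_on_max_value ord with
  | empty =>
    intro G _
    unfold hyS
    simp
  | insert a s ha hmax ih =>
    intro G hG
    have hf' : ∀ j ∈ insert a s, ∀ (P : ∀ j, T j) (p : T a),
        f (Function.update P a p) j = f P j := fun j hj P p => hf j a P p (by
      rcases Finset.mem_insert.1 hj with rfl | hj
      · exact le_rfl
      · exact hmax j hj)
    by_cases han : ord a ≤ n
    · have hall : ∀ j ∈ insert a s, ord j ≤ n := by
        intro j hj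
        rcases Finset.mem_insert.1 hj with rfl | hj
        · exact han
        · exact (hmax j hj).trans han
      have he : hyS Q f (fun b j p => if ord j ≤ n then m b j p else m₀ j p) (insert a s) G =
          hyS Q f m (insert a s) G := by
        unfold hyS
        refine Finset.sum_congr rfl fun P _ => ?_
        congr 1
        exact Finset.prod_congr rfl fun j hj => if_pos (hall j hj)
      rw [he, sub_self, abs_zero]
      exact Finset.sum_nonneg fun j _ => hη j
    have hna : n < ord a := not_le.1 han
    have hfil : (insert a s).filter (fun j => n < ord j) =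
        insert a (s.filter (fun j => n < ord j)) := by
      rw [Finset.filter_insert, if_pos hna]
    rw [hy_step Q f m s a ha hf', hy_step Q f _ s a ha hf', hfil,
      Finset.sum_insert (fun h => ha (Finset.mem_filter.1 h).1)]
    have hA : |hyS Q f m s (fun P => ∑ p, m (f P a) a p * G (Function.update P a p)) -
        hyS Q f m s (fun P => ∑ p, m₀ a p * G (Function.update P a p))| ≤ η a := by
      have hm := hy_mass Q f m ord hm0 hm1 hf s
      unfold hyS at hm ⊢
      rw [← Finset.sum_sub_distrib]
      refine (Finset.abs_sum_le_sum_abs _ _).trans ?_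
      have h2 : ∀ P ∈ hyX Q s, |(∏ j ∈ s, m (f P j) j (P j)) *
          ∑ p, m (f P a) a p * G (Function.update P a p) -
          (∏ j ∈ s, m (f P j) j (P j)) * ∑ p, m₀ a p * G (Function.update P a p)| ≤
          ((∏ j ∈ s, m (f P j) j (P j)) * 1) * η a := by
        intro P _
        have h3 : 0 ≤ ∏ j ∈ s, m (f P j) j (P j) := Finset.prod_nonneg fun j _ => hm0 _ _ _
        rw [← mul_sub, abs_mul, abs_of_nonneg h3, mul_one]
        exact mul_le_mul_of_nonneg_left (hG _ a (Finset.mem_insert_self a s) hna P) h3
      refine (Finset.sum_le_sum h2).trans ?_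
      rw [← Finset.sum_mul]
      calc _ ≤ 1 * η a := mul_le_mul_of_nonneg_right hm (hη a)
        _ = η a := one_mul _
    have hB := ih (fun P => ∑ p, m₀ a p * G (Function.update P a p)) (by
      intro b j hj hjn P
      have hne : j ≠ a := fun h => ha (h ▸ hj)
      have hsw : ∀ (q : T j) (p : T a), Function.update (Function.update P j q) a p =
          Function.update (Function.update P a p) j q := fun q p =>
        Function.update_comm hne q p P
      have h4 : ∀ w : T j → ℝ, ∑ q, w q * ∑ p, m₀ a p *
          G (Function.update (Function.update P j q) a p) =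
          ∑ p, m₀ a p * ∑ q, w q * G (Function.update (Function.update P a p) j q) := by
        intro w
        simp only [Finset.mul_sum]
        rw [Finset.sum_comm]
        refine Finset.sum_congr rfl fun p _ => Finset.sum_congr rfl fun q _ => ?_
        rw [hsw q p]
        ring
      rw [h4, h4, ← Finset.sum_sub_distrib]
      refine (Finset.abs_sum_le_sum_abs _ _).trans ?_
      have h5 : ∀ p ∈ (Finset.univ : Finset (T a)), |m₀ a p *
          ∑ q, m b j q * G (Function.update (Function.update P a p) j q) -
          m₀ a p * ∑ q, m₀ j q * G (Function.update (Function.update P a p) j q)| ≤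
          m₀ a p * η j := by
        intro p _
        rw [← mul_sub, abs_mul, abs_of_nonneg (h0 a p)]
        exact mul_le_mul_of_nonneg_left (hG b j (Finset.mem_insert_of_mem hj) hjn _) (h0 a p)
      refine (Finset.sum_le_sum h5).trans ?_
      rw [← Finset.sum_mul]
      calc _ ≤ 1 * η j := mul_le_mul_of_nonneg_right (h1 a) (hη j)
        _ = η j := one_mul _)
    have hC : (fun P : ∀ j, T j => ∑ p, (if ord a ≤ n then m (f P a) a p else m₀ a p) *
        G (Function.update P a p)) = fun P => ∑ p, m₀ a p * G (Function.update P a p) := by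
      funext P
      exact Finset.sum_congr rfl fun p _ => by rw [if_neg han]
    rw [hC]
    calc _ ≤ _ := abs_sub_le _ (hyS Q f m s (fun P => ∑ p, m₀ a p * G (Function.update P a p))) _
      _ ≤ η a + ∑ j ∈ s.filter (fun j => n < ord j), η j := add_le_add hA hB

end hy

theorem pf_HY4 : T_HY4 := by
  intro I _ _ T _ ord m f hm0 hm1 hf
  by_cases hQ : Nonempty (∀ j, T j)
  · obtain ⟨Q⟩ := hQ
    have h3 : hyX Q (Finset.univ : Finset I) = Finset.univ := by
      ext P
      rw [hyX_mem]
      exact ⟨fun _ => Finset.mem_univ _, fun _ j hj => absurd (Finset.mem_univ j) hj⟩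
    refine ⟨?_, ?_⟩
    · have h4 := hy_mass Q f m ord hm0 hm1 hf Finset.univ
      unfold hyS at h4
      rw [h3] at h4
      simp only [mul_one] at h4
      exact h4
    · intro n m₀ F η h0 h1 hη hF
      have h2 := hy_main Q ord n m₀ m f η h0 h1 hm0 hm1 hη hf Finset.univ F
        (fun b j _ hj P => hF b j P hj)
      unfold hyS at h2
      rw [h3] at h2
      exact h2
  · rw [not_nonempty_iff] at hQ
    refine ⟨?_, ?_⟩
    · rw [Finset.univ_eq_empty, Finset.sum_empty]
      exact zero_le_one
    · intro n m₀ F η h0 h1 hη hF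
      rw [Finset.univ_eq_empty, Finset.sum_empty, Finset.sum_empty, sub_zero, abs_zero]
      exact Finset.sum_nonneg fun j _ => hη j

end Pool.Agent.H23.AV
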